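import Pool.Agent.Lib.MP_0becda_co.Coset.Cell

/-!
A closed walk through all cosets but one, with a long run and short segments for odd classes.
-/

set_option linter.unusedSectionVars false

open Finset Pool.Agent.Lib.MP_0becda_co.PSL

namespace Pool.Agent.Lib.MP_0becda_co.Coset

theorem exists_pairing {I : Type} [DecidableEq I] (Q : I → I → Prop) (n : ℕ) :
    ∀ I1 : Finset I, I1.card = n → ∃ I0 ⊆ I1, (∀ i ∈ I0, ∀ j ∈ I0, Q i j → i = j) ∧
      ∃ L : Multiset I, 2 * Multiset.card L + I0.card = I1.card ∧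
        ∀ f : I → ℕ, (∀ i j, Q i j → f i = f j) → ∑ i ∈ I1 \ I0, f i = 2 * (L.map f).sum := by
  induction n using Nat.strong_induction_on with
  | _ n ih =>
    intro I1 hn
    by_cases h : ∀ i ∈ I1, ∀ j ∈ I1, Q i j → i = j
    · exact ⟨I1, subset_rfl, h, 0, by simp, fun f _ => by simp⟩
    simp only [not_forall] at h
    obtain ⟨i, hi, j, hj, hq, hne⟩ := h
    have hj' : j ∈ I1.erase i := mem_erase.2 ⟨Ne.symm hne, hj⟩
    have c1 := card_erase_add_one hi
    have c2 := card_erase_add_one hj'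
    obtain ⟨I0, k1, k2, L, k3, k4⟩ := ih _ (by omega) ((I1.erase i).erase j) rfl
    have e1 : i ∉ I0 := fun h => notMem_erase i I1 (mem_of_mem_erase (k1 h))
    have e2 : j ∉ I0 := fun h => notMem_erase j _ (k1 h)
    refine ⟨I0, k1.trans ((erase_subset _ _).trans (erase_subset _ _)), k2, i ::ₘ L,
      by rw [Multiset.card_cons]; omega, fun f hf => ?_⟩
    have e3 : (I1.erase i).erase j \ I0 = ((I1 \ I0).erase i).erase j := by
      ext x; simp only [mem_sdiff, mem_erase]; tauto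
    have e4 : i ∈ I1 \ I0 := mem_sdiff.2 ⟨hi, e1⟩
    have e5 : j ∈ (I1 \ I0).erase i := mem_erase.2 ⟨Ne.symm hne, mem_sdiff.2 ⟨hj, e2⟩⟩
    rw [← add_sum_erase _ _ e4, ← add_sum_erase _ _ e5, ← e3, k4 f hf, Multiset.map_cons,
      Multiset.sum_cons, ← hf i j hq]
    ring

theorem exists_gads {X I : Type} [Fintype X] [DecidableEq X] [DecidableEq I] {P : X → X → Prop}
    (hs : ∀ x y, P x y → P y x) {k : ℕ} (hk : ∀ x, ∑ y, ind (P x y) ≤ k) (Q : I → X → X → Prop)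
    (R0 : Finset X) (u0 z0 : X) (hu : u0 ∈ R0) (h0 : ¬ P u0 z0) (I0 : Finset I) :
    (∀ i ∈ I0, ∀ W : Finset X, 2 * W.card < Fintype.card X → ∃ p ∉ W, ∃ q ∉ W, p ≠ q ∧ Q i p q) →
    2 * (R0.card + 3 * I0.card) + 3 * k < Fintype.card X →
    ∃ (u y y' : ℕ → X) (R : Finset X), u 0 = u0 ∧ R0 ⊆ R ∧ R.card = R0.card + 3 * I0.card ∧
      u I0.card ∈ R ∧ ¬ P (u I0.card) z0 ∧
      (∀ j < I0.card, ¬ P (u j) (y j) ∧ ¬ P (u j) (y' j) ∧ ¬ P (u (j + 1)) (y j) ∧
        ¬ P (u (j + 1)) (y' j)) ∧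
      (∀ F : X → ℕ, ∑ x ∈ R, F x = ∑ x ∈ R0, F x
        + ∑ j ∈ range I0.card, (F (y j) + F (y' j) + F (u (j + 1)))) ∧
      ∀ (f : X → X → ℕ) (c : I → ℕ), (∀ i p q, Q i p q → f p q = c i) →
        ∑ j ∈ range I0.card, f (y j) (y' j) = ∑ i ∈ I0, c i := by
  classical
  induction I0 using Finset.induction_on with
  | empty =>
    exact fun _ _ => ⟨fun _ => u0, fun _ => u0, fun _ => u0, R0, rfl, subset_rfl, by simp, hu, h0,
      by simp, by simp, by simp⟩
  | insert i I0 hi ih =>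
    intro hQ hX
    rw [card_insert_of_notMem hi] at hX ⊢
    obtain ⟨u, y, y', R, k1, k2, k3, k4, k5, k6, k7, k8⟩ :=
      ih (fun j hj => hQ j (mem_insert_of_mem hj)) (by omega)
    generalize I0.card = r at *
    have w1 : (R ∪ univ.filter (P (u r))).card ≤ R.card + k :=
      (card_union_le _ _).trans (add_le_add le_rfl (by rw [← sum_ind_card]; exact hk _))
    obtain ⟨p, p1, q, q1, pq, hq⟩ := hQ i (mem_insert_self _ _) (R ∪ univ.filter (P (u r))) (by omega)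
    simp only [mem_union, mem_filter, mem_univ, true_and, not_or] at p1 q1
    have w2 : p ∉ insert q R := by simp [pq, p1.1]
    have w3 : (insert p (insert q R)).card = R.card + 2 := by
      rw [card_insert_of_notMem w2, card_insert_of_notMem q1.1]
    obtain ⟨v, v1, v2⟩ := exists_not_of_lt (S := (insert p (insert q R))ᶜ)
      (p := fun x => P p x ∨ (P q x ∨ P z0 x)) (lt_of_le_of_lt ((sum_or_le _ _).trans
        (add_le_add (hk _) ((sum_or_le _ _).trans (add_le_add (hk _) (hk _)))))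
        (by rw [card_compl]; omega))
    rw [mem_compl] at v1
    simp only [not_or] at v2
    refine ⟨fun j => if j ≤ r then u j else v, fun j => if j < r then y j else p,
      fun j => if j < r then y' j else q, insert v (insert p (insert q R)), by simpa using k1,
      k2.trans ((subset_insert _ _).trans ((subset_insert _ _).trans (subset_insert _ _))),
      by rw [card_insert_of_notMem v1]; omega, by simp, ?_, fun j hj => ?_, fun F => ?_,
      fun f c hc => ?_⟩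
    · simpa only [if_neg (Nat.not_succ_le_self r)] using fun h => v2.2.2 (hs _ _ h)
    · by_cases e : j < r
      · simpa only [if_pos e, if_pos e.le, if_pos (Nat.succ_le_of_lt e)] using k6 j e
      · obtain rfl : j = r := by omega
        simp only [if_neg e, if_pos (le_refl j), if_neg (Nat.not_succ_le_self j)]
        exact ⟨p1.2, q1.2, fun h => v2.1 (hs _ _ h), fun h => v2.2.1 (hs _ _ h)⟩
    · rw [sum_insert v1, sum_insert w2, sum_insert q1.1, sum_range_succ, sum_congr (s₁ := range r) rfl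
        (g := fun j => F (y j) + F (y' j) + F (u (j + 1))) fun j hj => by
          simp only [if_pos (mem_range.1 hj), if_pos (show j + 1 ≤ r from mem_range.1 hj)], k7]
      simp only [if_neg (lt_irrefl r), if_neg (Nat.not_succ_le_self r)]
      omega
    · rw [sum_insert hi, sum_range_succ, sum_congr rfl (g := fun j => f (y j) (y' j)) fun j hj => by
          simp only [if_pos (mem_range.1 hj)], k8 f c hc]
      simp only [if_neg (lt_irrefl r)]
      rw [hc i p q hq, add_comm]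

variable {G : Type} [Group G] [Fintype G]

theorem kk_cases (K : Subgroup G) (m d : G) : ∃ j, kk K m d = j * kk K d d := by
  by_cases h : kk K m d = 0
  · exact ⟨0, by rw [h, zero_mul]⟩
  · have h1 : ke K s(1, m) d ≠ 0 := by rwa [ke_mk, inv_one, one_mul]
    have h2 := TV.ke_cls (TV.cls_of_ke h1) d
    rw [ke_mk, inv_one, one_mul] at h2
    exact ⟨1, by rw [h2, one_mul]⟩

theorem kk_cases' (K : Subgroup G) {I : Type} (f : I → G) (d : G) (L : Multiset I) :
    ∃ j, (L.map fun i => kk K (f i) d).sum = j * kk K d d := by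
  induction L using Multiset.induction_on with
  | empty => exact ⟨0, by simp⟩
  | cons i L ih =>
    obtain ⟨j, hj⟩ := ih
    obtain ⟨j', hj'⟩ := kk_cases K (f i) d
    exact ⟨j' + j, by rw [Multiset.map_cons, Multiset.sum_cons, hj, hj', add_mul]⟩

theorem big_gad (H : Subgroup G) (w : G) (S : Finset G) (s c : ℕ) (s0 : 0 < s)
    (hS : ∀ d ∉ H, (¬ ∃ a ∈ H, ∃ b ∈ H, d = a * w * b) → ∃ t ∈ S, ∃ a ∈ H, ∃ b ∈ H, d = a * t * b)
    (c1 : 2 * (s + 3 + 3 * S.card) ≤ c)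
    (hw : 3 * Nat.card G + c * Nat.card H
      < 4 * Nat.card {g : G // ∃ a ∈ H, ∃ b ∈ H, g = a * w * b}) :
    ∃ (D : G → Prop) (z : ℕ → G) (o x : G) (e r : ℕ) (u y y' : ℕ → G) (V : Multiset G)
      (E : Multiset (Sym2 G)), (∀ g, D g → ∃ a ∈ H, ∃ b ∈ H, g = a * w * b) ∧ e ≤ 1 ∧
      u 0 = z (s + e) ∧ Path V E (u r) x ∧
      (∀ i < s + e, D ((z i)⁻¹ * z (i + 1)) ∧ D ((z (i + 1))⁻¹ * z i)) ∧ D (x⁻¹ * z 0) ∧
      D ((z 0)⁻¹ * o) ∧ (∀ j < r, D ((u j)⁻¹ * y j) ∧ D ((u j)⁻¹ * y' j) ∧ D ((u (j + 1))⁻¹ * y j) ∧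
        D ((u (j + 1))⁻¹ * y' j)) ∧
      (∀ g, ∑ i ∈ range (s + e), ind ((z i)⁻¹ * g ∈ H) + ind (o⁻¹ * g ∈ H)
        + ∑ j ∈ range r, (ind ((u j)⁻¹ * g ∈ H) + ind ((y j)⁻¹ * g ∈ H) + ind ((y' j)⁻¹ * g ∈ H))
        + CV H V g = 1) ∧
      (∀ g, (s + e + 2 * r + 1) * kk H w g + ∑ j ∈ range r, kk H ((y j)⁻¹ * y' j) g + KE H E g
        = 2 * cd H * ind (g ∉ H)) ∧ ∀ d, ∃ j, KE H E d = 2 * j * kk H d d := by
  classical
  obtain ⟨X, _, ⟨T⟩⟩ : ∃ (X : Type) (_ : Fintype X), Nonempty (TV H ⊤ X) :=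
    ⟨_, Fintype.ofFinite _, ⟨tvq le_top⟩⟩
  let Dd : G → Prop := fun g => ∃ a ∈ H, ∃ b ∈ H, g = a * w * b
  have h0 := cd_pos H
  have h1 : Fintype.card X * cd H = Nat.card G := by rw [T.card_mul, cd_eq, Subgroup.card_top]
  have h2 : Fintype.card X = H.index := Nat.eq_of_mul_eq_mul_right h0 (by
    rw [h1, cd_eq, mul_comm, Subgroup.card_mul_index])
  rw [← cd_eq, Nat.card_eq_fintype_card (α := Subtype _), Fintype.card_subtype, ← sum_ind_card] at hw
  have d1 : ∀ g, ∀ a ∈ H, ∀ b ∈ H, Dd g → Dd (a * g * b) := fun g a ha b hb ⟨c, hc, e, he, h⟩ =>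
    ⟨_, mul_mem ha hc, _, mul_mem he hb, by rw [h]; group⟩
  have d2 : ∀ g, Dd g → Dd g⁻¹ := by
    obtain ⟨g, -, h3⟩ := exists_not_of_lt (S := univ) (p := fun g => ¬ Dd g ∨ ¬ Dd g⁻¹) (by
      have k1 : ∑ g, (ind (Dd g) + ind (Dd g⁻¹) + ind (¬ Dd g ∨ ¬ Dd g⁻¹)) ≤ ∑ _g : G, 2 := by
        refine sum_le_sum fun g _ => ?_
        by_cases e : Dd g <;> by_cases e' : Dd g⁻¹ <;> simp [e, e', ind_pos, ind_neg]
      have k2 : ∑ g, ind (¬ Dd g ∨ ¬ Dd g⁻¹) ≤ ∑ g, (ind (¬ Dd g) + ind (¬ Dd g⁻¹)) := by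
        refine sum_le_sum fun g _ => ?_
        by_cases e : Dd g <;> by_cases e' : Dd g⁻¹ <;> simp [e, e', ind_pos, ind_neg]
      have k3 : ∑ g, (ind (Dd g) + ind (¬ Dd g)) = ∑ _g : G, 1 := by
        refine sum_congr rfl fun g _ => ?_
        by_cases e : Dd g <;> simp [e, ind_pos, ind_neg]
      rw [sum_add_distrib, show ∑ g, ind (¬ Dd g⁻¹) = ∑ g, ind (¬ Dd g) from
        Equiv.sum_comp (Equiv.inv G) fun g => ind (¬ Dd g)] at k2
      rw [sum_add_distrib, sum_const, smul_eq_mul, mul_one] at k3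
      rw [Nat.card_eq_fintype_card, ← card_univ] at hw
      change _ < 4 * ∑ g, ind (Dd g) at hw
      omega)
    simp only [not_or, not_not] at h3
    obtain ⟨⟨a, ha, b, hb, rfl⟩, h4⟩ := h3
    rintro _ ⟨c, hc, e, he, rfl⟩
    have := d1 _ _ (mul_mem (inv_mem he) hb) _ (mul_mem ha (inv_mem hc)) h4
    rwa [show e⁻¹ * b * (a * w * b)⁻¹ * (a * c⁻¹) = (c * w * e)⁻¹ by group] at this
  have d3 : ∀ x, (∑ y, ind (Dd ((T.t x)⁻¹ * T.t y))) * cd H = ∑ g, ind (Dd g) := fun x => by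
    rw [← (Group.mulLeft_bijective (T.t x)⁻¹).sum_comp, sum_mul,
      sum_congr rfl (g := fun g => ∑ y, ind ((T.t y)⁻¹ * g * 1 ∈ H) * ind (Dd ((T.t x)⁻¹ * g)))
        fun g _ => by simp only [mul_one]; rw [← sum_mul, T.sum_ind, ind_pos (Subgroup.mem_top g),
          one_mul], sum_comm]
    refine sum_congr rfl fun y _ => ?_
    rw [← sum_shift H (T.t y)⁻¹ 1, mul_sum]
    refine sum_congr rfl fun g _ => ?_
    by_cases e : (T.t y)⁻¹ * g * 1 ∈ H
    · rw [mul_comm]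
      congr 1
      refine ind_congr ⟨fun h => ?_, fun h => ?_⟩
      · simpa [mul_assoc] using d1 _ 1 (one_mem _) _ e h
      · simpa [mul_assoc] using d1 _ 1 (one_mem _) _ (inv_mem e) h
    · rw [ind_neg e, mul_zero, zero_mul]
  obtain ⟨x0⟩ := Fintype.card_pos_iff.1 T.card_pos
  obtain ⟨l, hl⟩ : ∃ l, ∀ x, ∑ y, ind (Dd ((T.t x)⁻¹ * T.t y)) = l :=
    ⟨_, fun x => Nat.eq_of_mul_eq_mul_right h0 ((d3 x).trans (d3 x0).symm)⟩
  have h3 : 3 * Fintype.card X + c < 4 * l := Nat.lt_of_mul_lt_mul_right (a := cd H) (by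
    rw [add_mul, mul_assoc, mul_assoc, h1, ← hl x0, d3]; exact hw)
  by_cases hd : Dd 1
  · have k1 : l ≤ 1 := by
      rw [← hl x0, ← sum_ind_eq x0]
      refine sum_le_sum fun y _ => ?_
      by_cases e : Dd ((T.t x0)⁻¹ * T.t y)
      · rw [ind_pos e]
        obtain ⟨a, ha, b, hb, k1⟩ := hd
        obtain ⟨c, hc, e', he, k2⟩ := e
        rw [T.uniq x0 y (by
          rw [k2, show w = a⁻¹ * (a * w * b) * b⁻¹ by group, ← k1]
          exact mul_mem (mul_mem hc (mul_mem (mul_mem (inv_mem ha) (one_mem _)) (inv_mem hb))) he),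
          ind_pos rfl]
      · simp [e, ind_neg]
    have := T.card_pos
    omega
  let P : X → X → Prop := fun x y => x ≠ y ∧ ¬ Dd ((T.t x)⁻¹ * T.t y)
  have hs : ∀ x y, P x y → P y x := fun x y h => ⟨h.1.symm, fun h' => h.2 (by simpa using d2 _ h')⟩
  have hi : ∀ x, ¬ P x x := fun x h => h.1 rfl
  have h4 : ∀ x, ∑ y, ind (P x y) + l + 1 = Fintype.card X := fun x => by
    rw [← hl x, ← sum_ind_eq x, ← sum_add_distrib, ← sum_add_distrib, ← card_univ, card_eq_sum_ones]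
    refine sum_congr rfl fun y _ => ?_
    by_cases e : y = x
    · simp [P, e, hd, ind_pos, ind_neg]
    · by_cases e' : Dd ((T.t x)⁻¹ * T.t y) <;> simp [P, e, e', Ne.symm e, ind_pos, ind_neg]
  obtain ⟨k, hk⟩ : ∃ k, ∀ x, ∑ y, ind (P x y) = k := ⟨_, fun x => by
    exact Nat.add_right_cancel (Nat.succ_injective ((h4 x).trans (h4 x0).symm))⟩
  have h5 := h4 x0
  rw [hk] at h5
  have h6 : (univ.filter (P x0)).card = k := by rw [← sum_ind_card, hk]
  have tp : ∀ i, P x0 i → ∀ W : Finset X, 2 * W.card < Fintype.card X → ∃ p ∉ W, ∃ q ∉ W, p ≠ q ∧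
      ∃ a ∈ H, ∃ b ∈ H, (T.t p)⁻¹ * T.t q = a * ((T.t x0)⁻¹ * T.t i) * b := fun i hi' W hW => by
      have k1 : ∀ z, ∑ g, ind (∃ p ∈ W, (T.t p)⁻¹ * g * z ∈ H) ≤ W.card * cd H := fun z => by
        rw [← smul_eq_mul, ← sum_const, ← sum_congr rfl fun p _ => sum_shift H (T.t p)⁻¹ z, sum_comm]
        refine sum_le_sum fun g _ => ?_
        by_cases e : ∃ p ∈ W, (T.t p)⁻¹ * g * z ∈ H
        · rw [ind_pos e]
          obtain ⟨p, e1, e2⟩ := e
          exact (ind_pos e2).ge.trans (single_le_sum (f := fun p => ind ((T.t p)⁻¹ * g * z ∈ H))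
            (fun _ _ => Nat.zero_le _) e1)
        · rw [ind_neg e]; exact Nat.zero_le _
      obtain ⟨g, -, k2⟩ := exists_not_of_lt (S := univ) (p := fun g =>
        (∃ p ∈ W, (T.t p)⁻¹ * g * T.t x0 ∈ H) ∨ ∃ p ∈ W, (T.t p)⁻¹ * g * T.t i ∈ H) (by
          refine lt_of_le_of_lt (sum_le_sum (g := fun g => ind (∃ p ∈ W, (T.t p)⁻¹ * g * T.t x0 ∈ H)
            + ind (∃ p ∈ W, (T.t p)⁻¹ * g * T.t i ∈ H)) fun g _ => ?_) ?_
          · by_cases e : ∃ p ∈ W, (T.t p)⁻¹ * g * T.t x0 ∈ H <;>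
              by_cases e' : ∃ p ∈ W, (T.t p)⁻¹ * g * T.t i ∈ H <;> simp only [e, e', ind_pos, ind_neg,
                or_true, true_or, or_self, not_false_eq_true] <;> omega
          · rw [sum_add_distrib, card_univ, ← Nat.card_eq_fintype_card, ← h1]
            refine lt_of_le_of_lt (add_le_add (k1 _) (k1 _)) ?_
            rw [← add_mul]
            exact Nat.mul_lt_mul_of_pos_right (by omega) h0)
      obtain ⟨α, hα⟩ := T.exists_act (Subgroup.mem_top g)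
      rw [not_or] at k2
      exact ⟨α x0, fun h => k2.1 ⟨_, h, hα x0⟩, α i, fun h => k2.2 ⟨_, h, hα i⟩,
        α.injective.ne hi'.1, _, hα x0, _, inv_mem (hα i), by group⟩
  obtain ⟨I0, i1, i2, Lp, i3, i4⟩ := exists_pairing (fun i j : X => ∃ a ∈ H, ∃ b ∈ H,
    (T.t x0)⁻¹ * T.t j = a * ((T.t x0)⁻¹ * T.t i) * b) _ (univ.filter (P x0)) rfl
  have i5 : I0.card ≤ S.card := by
    choose! τ t1 a ha b hb t2 using fun i (hi' : i ∈ I0) => hS ((T.t x0)⁻¹ * T.t i)
      (fun h => (mem_filter.1 (i1 hi')).2.1 (T.uniq _ _ h)) (mem_filter.1 (i1 hi')).2.2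
    refine card_le_card_of_injOn τ (fun i hi' => t1 i hi') fun i hi' j hj e => i2 i hi' j hj
      ⟨a j * (a i)⁻¹, mul_mem (ha j hj) (inv_mem (ha i hi')), (b i)⁻¹ * b j,
        mul_mem (inv_mem (hb i hi')) (hb j hj), by rw [t2 i hi', t2 j hj, e]; group⟩
  rw [h6] at i3
  obtain ⟨e, e0, m, hm⟩ : ∃ e ≤ 1, ∃ m, Fintype.card X = s + e + 2 + 3 * I0.card + 2 * m :=
    ⟨(Fintype.card X - (s + 2 + 3 * I0.card)) % 2, by omega,
      (Fintype.card X - (s + 2 + 3 * I0.card)) / 2, by omega⟩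
  obtain ⟨y, y1, y2, y3⟩ := exists_run hi (fun x => (hk x).le) (s + e + 1) (by omega)
  obtain ⟨R0, hR⟩ : ∃ R, R = (range (s + e + 1 + 1)).image y := ⟨_, rfl⟩
  have r1 : ∀ F : X → ℕ, ∑ x ∈ R0, F x = ∑ i ∈ range (s + e + 1 + 1), F (y i) := fun F =>
    hR ▸ sum_image fun i hi j hj =>
      y1 i (Nat.le_of_lt_succ (mem_range.1 hi)) j (Nat.le_of_lt_succ (mem_range.1 hj))
  have r2 : R0.card = s + e + 1 + 1 := by rw [card_eq_sum_ones, r1]; simp
  have r3 : ∀ i ≤ s + e + 1, y i ∈ R0 := fun i hi => hR ▸ mem_image_of_mem _ (mem_range.2 (by omega))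
  have y5 : ∀ i ≤ s + e + 1, 0 < i → y 0 ≠ y i := fun i hi h0 h => by
    have := y1 _ (Nat.zero_le _) _ hi h; omega
  have hs' : ∀ x y, (y = x ∨ P x y) → (x = y ∨ P y x) := fun x y h => h.imp Eq.symm (hs _ _)
  have hk' : ∀ x, ∑ y, ind (y = x ∨ P x y) ≤ k + 1 := fun x => by
    rw [← hk x, ← sum_ind_eq x, add_comm]
    exact sum_or_le _ _
  obtain ⟨u, p, q, R, g1, g2, g3, g4, g5, g6, g7, g8⟩ := exists_gads (P := fun x y => y = x ∨ P x y)
    hs' hk' (fun i x y => ∃ a ∈ H, ∃ b ∈ H, (T.t x)⁻¹ * T.t y = a * ((T.t x0)⁻¹ * T.t i) * b) R0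
    (y (s + e)) (y 0) (r3 _ (by omega)) (not_or.2 ⟨y5 _ (by omega) (by omega),
      fun h => y3 _ (by omega) (hs _ _ h)⟩) I0 (fun i hi' => tp i (mem_filter.1 (i1 hi')).2) (by omega)
  have i6 : (univ.filter (P x0) \ I0).card = 2 * Multiset.card Lp := by
    rw [card_sdiff_of_subset i1, h6]; omega
  obtain ⟨μ, W, m1, m2, m3, m4, m5, m6⟩ := match_typed
    (fun i x y => x ≠ y ∧ ∃ a ∈ H, ∃ b ∈ H, (T.t x)⁻¹ * T.t y = a * ((T.t x0)⁻¹ * T.t i) * b)
    (fun _ _ _ h => h.1) R (univ.filter (P x0) \ I0) fun i hi' W hW =>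
      tp i (mem_filter.1 (mem_sdiff.1 hi').1).2 W (by omega)
  rw [i6] at m2
  have h8 : (R ∪ W)ᶜ.card = 2 * (m - 2 * Multiset.card Lp) := by
    rw [card_compl, card_union_of_disjoint m3]; omega
  obtain ⟨ν, n1, n2, n3⟩ := match_out hs hi (fun x => (hk x).le) (R ∪ W)ᶜ
    ⟨m - 2 * Multiset.card Lp, by omega⟩ (by omega)
  simp only [mem_compl, not_not, mem_union] at n2
  have k4 : ∀ x ∈ W, μ x ∈ W := fun x hx => by_contra fun h => h (by rwa [← m4 _ h, m1])
  have k5 : ∀ x ∉ W, ν x ∉ W := fun x hx h => hx (by rwa [← n1 x, (n2 _).2 (Or.inr h)])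
  have k6 : ∀ x ∈ R, x ∉ W := fun x hx => disjoint_left.1 m3 hx
  obtain ⟨η, hη⟩ : ∃ η : X → X, ∀ x, η x = if x ∈ W then μ x else ν x := ⟨_, fun _ => rfl⟩
  have e1 : ∀ x, η (η x) = x := fun x => by
    by_cases h : x ∈ W
    · simp [hη, h, k4 x h, m1]
    · simp [hη, h, k5 x h, n1]
  have e2 : ∀ x, η x = x ↔ x ∈ R := fun x => by
    by_cases h : x ∈ W
    · simp only [hη, if_pos h]
      exact ⟨fun h9 => absurd h9 (m5 x h), fun h9 => absurd h (k6 x h9)⟩
    · simp [hη, h, n2]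
  have f1 : ∀ x y, x ≠ y → ¬ P x y → Dd ((T.t x)⁻¹ * T.t y) := fun x y k1 k2 =>
    not_not.1 fun h => k2 ⟨k1, h⟩
  have f2 : ∀ g x y, x ≠ y → ¬ P x y → kk H ((T.t x)⁻¹ * T.t y) g = kk H w g := fun g x y k1 k2 => by
    obtain ⟨a, ha, b, hb, h⟩ := f1 x y k1 k2
    rw [h, kk_mul ha hb]
  have f3 : ∀ x y, ¬ (y = x ∨ P x y) → Dd ((T.t x)⁻¹ * T.t y) := fun x y h =>
    f1 _ _ (fun h' => h (Or.inl h'.symm)) fun h' => h (Or.inr h')
  have y4 : ∀ i < s + e + 1, y i ≠ y (i + 1) := fun i hi h => by have := y1 _ hi.le _ hi h; omega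
  obtain ⟨L, l3, l4, l5⟩ := exists_loop (P := fun x y => y = x ∨ P x y) (κ := k + 1) hs' hk'
    e1 e2 g4 (g2 (r3 0 (Nat.zero_le _))) (fun h => g5 (Or.inl h.symm)) g5 (by omega) m (by omega)
  have cov : ∀ F : X → ℕ,
      ∑ x, F x = ∑ x ∈ R, F x + (L.map fun x => F x + F (η x)).sum := fun F => by
    rw [← eq_univ_of_card (⟨_, l5⟩ : Finset X) (by simp; omega), Finset.sum, Finset.sum,
      Multiset.map_add, Multiset.sum_add]
    simp [List.sum_map_add, Function.comp_def]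
  obtain ⟨J, q', l8, l6, l7⟩ := link_loop H T.t η (fun x => {T.t x} + {T.t (η x)})
    (fun x => {s(T.t x, T.t (η x))}) (k := kk H w)
    (fun x => by simpa using (Path.single (T.t x)).append (Path.single (T.t (η x))))
    (fun x y h g => by
      rw [not_or] at h
      rw [ke_mk, f2 g _ _ (Ne.symm h.1) h.2]) (y 0)
    L (u I0.card) _ _ _ ((Path.single (T.t (u I0.card))).congr rfl rfl rfl
      (by rw [(e2 _).2 g4])) l4
  obtain ⟨r', hr'⟩ : ∃ r', m = 2 * Multiset.card Lp + r' := ⟨m - 2 * Multiset.card Lp, by omega⟩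
  have key : ∀ g, KE H (0 + (L.map fun x => ({s(T.t x, T.t (η x))} : Multiset (Sym2 G))).sum + J) g
      = ∑ i ∈ univ.filter (P x0) \ I0, kk H ((T.t x0)⁻¹ * T.t i) g + (r' + m) * kk H w g := fun g => by
    have k3 : ∀ L : List X, 2 * KE H (L.map fun x =>
        ({s(T.t x, T.t (η x))} : Multiset (Sym2 G))).sum g = (L.map fun x =>
          kk H ((T.t x)⁻¹ * T.t (η x)) g + kk H ((T.t (η x))⁻¹ * T.t (η (η x))) g).sum := fun L => by
      induction L with
      | nil => simp [KE]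
      | cons x L ih =>
        rw [List.map_cons, List.sum_cons, Multiset.singleton_add, KE_cons, mul_add, ih, List.map_cons,
          List.sum_cons, ke_mk, e1, two_mul, ← kk_inv H ((T.t (η x))⁻¹ * _), mul_inv_rev, inv_inv]
    have k7 := cov fun x => kk H ((T.t x)⁻¹ * T.t (η x)) g
    rw [← k3, ← sum_add_sum_compl (R ∪ W), sum_union m3, add_assoc, add_right_inj,
      sum_congr rfl (g := fun x => kk H ((T.t x)⁻¹ * T.t (μ x)) g) fun x hx => by rw [hη, if_pos hx],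
      m6 (fun x y => kk H ((T.t x)⁻¹ * T.t y) g) (fun i => kk H ((T.t x0)⁻¹ * T.t i) g)
        fun i x y ⟨_, a, ha, b, hb, h⟩ => ⟨by rw [h, kk_mul ha hb], by
          rw [← kk_inv, mul_inv_rev, inv_inv, h, kk_mul ha hb]⟩,
      sum_congr rfl (s₁ := (R ∪ W)ᶜ) (g := fun _ => kk H w g) fun x hx => by
        rw [mem_compl, mem_union] at hx
        rw [hη, if_neg fun h => hx (Or.inr h)]
        exact f2 g _ _ (fun h => hx ((n2 x).1 h.symm)) (n3 x), sum_const, h8, smul_eq_mul] at k7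
    rw [hr', Nat.add_sub_cancel_left] at k7
    rw [KE_add, zero_add, l7, l3]
    nlinarith
  refine ⟨Dd, fun i => T.t (y i), T.t (y (s + e + 1)), _, e, I0.card, fun i => T.t (u i),
    fun i => T.t (p i), fun i => T.t (q i), _, _, fun _ h => h, e0, by simp only [g1], l6,
    fun i h => ?_, f3 _ _ l8, f1 _ _ (y5 _ le_rfl (by omega)) (y3 _ le_rfl), fun j hj =>
      ⟨f3 _ _ (g6 j hj).1, f3 _ _ (g6 j hj).2.1, f3 _ _ (g6 j hj).2.2.1, f3 _ _ (g6 j hj).2.2.2⟩,
    fun g => ?_, fun g => ?_, fun d => ?_⟩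
  · have := f1 _ _ (y4 i (by omega)) (y2 i (by omega))
    exact ⟨this, by simpa using d2 _ this⟩
  · have k1 := cov fun x => ind ((T.t x)⁻¹ * g ∈ H)
    rw [T.sum_ind, ind_pos (Subgroup.mem_top g), g7, r1, sum_range_succ, sum_range_succ] at k1
    have k2 : ∀ L : List X, CV H (L.map fun x => ({T.t x} + {T.t (η x)} : Multiset G)).sum g
        = (L.map fun x => ind ((T.t x)⁻¹ * g ∈ H) + ind ((T.t (η x))⁻¹ * g ∈ H)).sum := fun L => by
      induction L with
      | nil => simp [CV]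
      | cons x L ih => rw [List.map_cons, List.sum_cons, CV_add, ih]; simp [CV]
    have k3 := sum_range_succ (fun j => ind ((T.t (u j))⁻¹ * g ∈ H)) I0.card
    rw [sum_range_succ', g1] at k3
    rw [CV_add, k2, show CV H {T.t (u I0.card)} g = ind ((T.t (u I0.card))⁻¹ * g ∈ H) by simp [CV]]
    simp only [sum_add_distrib] at k1 ⊢
    omega
  · have k11 : Fintype.card X - 1 - k = s + e + 2 * I0.card + 1 + (r' + m) := by
      clear * - hm hr' i3
      omega
    have k8 := T.sum_erase x0 g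
    have k9 : univ.filter (P x0) ⊆ univ.erase x0 := fun y hy =>
      mem_erase.2 ⟨(mem_filter.1 hy).2.1.symm, mem_univ _⟩
    rw [← sum_sdiff k9, sum_congr rfl (g := fun _ => kk H w g) fun y hy => by
        rw [mem_sdiff, mem_erase, mem_filter] at hy
        exact f2 g _ _ hy.1.1.symm fun h => hy.2 ⟨mem_univ _, h⟩, sum_const, card_sdiff_of_subset k9,
      h6, card_erase_of_mem (mem_univ _), card_univ, smul_eq_mul,
      ind_congr (and_iff_right (Subgroup.mem_top g)), ← sum_sdiff i1,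
      k11] at k8
    have k10 := g8 (fun x y => kk H ((T.t x)⁻¹ * T.t y) g) (fun i => kk H ((T.t x0)⁻¹ * T.t i) g)
      fun i x y ⟨a, ha, b, hb, h⟩ => by simp only [h, kk_mul ha hb]
    rw [key, ← k8, k10]
    ring
  · obtain ⟨j1, h1⟩ := kk_cases' H (fun i => (T.t x0)⁻¹ * T.t i) d Lp
    obtain ⟨j2, h2⟩ := kk_cases H w d
    refine ⟨j1 + (r' + Multiset.card Lp) * j2, ?_⟩
    rw [key, i4 (fun i => kk H ((T.t x0)⁻¹ * T.t i) d) fun i j ⟨a, ha, b, hb, h⟩ => by
      rw [h, kk_mul ha hb], h1, h2, hr']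
    ring

end Pool.Agent.Lib.MP_0becda_co.Coset
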