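import Pool.Agent.Lib.MP_0becda_co.Cyc.Gad

/-!
Several gadgets in a row.
-/

set_option linter.unusedSectionVars false

open Finset Pool.Agent.Lib.MP_0becda_co.PSL

namespace Pool.Agent.Lib.MP_0becda_co.Coset

variable {G : Type} [Group G] [Fintype G]

namespace TV

variable {H B : Subgroup G} {A : Type} [AddCommGroup A] [Fintype A] (T : TV H B A)

theorem chain (α : A ≃+ A) (F : A → G → ℕ) (D : G → Prop) (hdom : ∀ d, D d → ∃ ω, ∀ a a' g,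
      kk H ((T.t a)⁻¹ * d * T.t a') g = F (a' - α a + ω) g) {k : G → ℕ}
    (hF : ∀ g, Fintype.card A * ∑ c, F c g = k g) {h : A} (hh : h + h = 0) (h0 : ∑ a : A, a = h)
    (hne : h ≠ 0)
    (hcol : ∀ d, ∃ β : A ≃ A, ∀ a a' g, kk H ((T.t a)⁻¹ * d * T.t a') g = kk H (d * T.t (a' - β a)) g)
    (en : A → G) (r : ℕ) : ∀ (u y z : ℕ → G),
    (∀ j < r, D ((u j)⁻¹ * y j) ∧ D ((u j)⁻¹ * z j) ∧ D ((u (j + 1))⁻¹ * y j) ∧
      D ((u (j + 1))⁻¹ * z j)) →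
    ∀ (Vx : A → Multiset G) (Ex : A → Multiset (Sym2 G)),
    (∀ c, Path (Vx c) (Ex c) (u r * T.t c) (en c)) → ∀ x1 : A,
    ∃ (x2 : A) (Φ : Equiv.Perm A) (Vx' : A → Multiset G) (Ex' : A → Multiset (Sym2 G)),
      (∀ c, Path (Vx' c) (Ex' c) (u 0 * T.t c) (en (Φ c))) ∧
      (∀ g, CV H (∑ c, Vx' c) g = CV H (∑ c, Vx c) g + ∑ j ∈ range r,
        (ind ((u j)⁻¹ * g ∈ B) + ind ((y j)⁻¹ * g ∈ B) + ind ((z j)⁻¹ * g ∈ B))) ∧
      ∀ g, Fintype.card A * (KE H (∑ c, Ex' c) g + F x1 g)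
        = Fintype.card A * (KE H (∑ c, Ex c) g + F x2 g)
          + ∑ j ∈ range r, (2 * k g + kk B ((y j)⁻¹ * z j) g) := by
  induction r with
  | zero => exact fun u y z _ Vx Ex hp x1 => ⟨x1, 1, Vx, Ex, hp, by simp, by simp⟩
  | succ r ih =>
    intro u y z hd Vx Ex hp x1
    obtain ⟨x2, Φ, V1, E1, p1, p2, p3⟩ := ih (fun j => u (j + 1)) (fun j => y (j + 1))
      (fun j => z (j + 1)) (fun j hj => hd (j + 1) (by omega)) Vx Ex hp x1
    obtain ⟨d1, d2, d3, d4⟩ := hd 0 (by omega)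
    obtain ⟨x3, Ψ, V2, E2, q1, q2, q3⟩ := T.gadget α F D hdom hF hh h0 hne hcol d1 d2 d3 d4 V1 E1
      (fun c => en (Φ c)) p1 x2
    refine ⟨x3, Φ * Ψ, V2, E2, q1, fun g => ?_, fun g => ?_⟩
    · rw [q2, p2, sum_range_succ', add_assoc]
    · have e1 := p3 g
      have e2 := q3 g
      rw [sum_range_succ']
      simp only [mul_add] at e1 e2 ⊢
      omega

end TV

end Pool.Agent.Lib.MP_0becda_co.Coset
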