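import Pool.Agent.Lib.MP_0becda_co.Coset.Cell

/-!
Lifting a path in which every class of edges occurs an even number of times.
-/

set_option linter.unusedSectionVars false

open Finset Pool.Agent.Lib.MP_0becda_co.PSL

namespace Pool.Agent.Lib.MP_0becda_co.Coset

variable {G : Type} [Group G] [Fintype G]

namespace TV

variable {H B : Subgroup G} {A : Type} [AddCommGroup A] [Fintype A] (T : TV H B A)

theorem even_bal {h : A} (hh : h + h = 0) (h0 : ∑ a : A, a = h)
    (hcol : ∀ d, ∃ α : A ≃ A, ∀ a a' g, kk H ((T.t a)⁻¹ * d * T.t a') g = kk H (d * T.t (a' - α a)) g)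
    (d : G) : T.Bal ⊤ d 2 := by
  classical
  obtain ⟨α, hα⟩ := hcol d
  obtain ⟨p, hp⟩ := exists_bundle α (fun x => if x = 0 then h else x) (by
    rw [← add_sum_erase _ _ (mem_univ 0), if_pos rfl, sum_congr rfl fun x hx =>
      if_neg (mem_erase.1 hx).1, Finset.sum_erase (f := fun x : A => x) _ rfl, h0, hh])
  refine ⟨{p, p.trans (Equiv.addRight h)}, rfl, fun _ _ => Subgroup.mem_top _, fun g => ?_⟩
  have hq : ∀ (F : A → ℕ) (c : A), ∑ a, F (p a - α a + c) + F c = ∑ a, F a + F (h + c) :=
    fun F c => by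
      rw [hp fun x => F (x + c), ← Equiv.sum_comp (Equiv.addRight c) F,
        ← add_sum_erase _ _ (mem_univ 0), ← add_sum_erase _ _ (mem_univ 0), if_pos rfl,
        sum_congr rfl fun x hx => by rw [if_neg (mem_erase.1 hx).1]]
      simp only [Equiv.coe_addRight, zero_add]
      omega
  have e1 := hq (fun c => kk H (d * T.t c) g) 0
  have e2 := hq (fun c => kk H (d * T.t c) g) h
  rw [← T.col_sum (F := fun c => kk H (d * T.t c) g) fun a a' => hα a a' g]
  simp only [add_zero, hh] at e1 e2
  simp only [Multiset.insert_eq_cons, Multiset.map_cons, Multiset.map_singleton,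
    Multiset.sum_cons, Multiset.sum_singleton, hα, Equiv.trans_apply, Equiv.coe_addRight,
    add_sub_right_comm]
  rw [mul_left_comm]
  congr 1
  omega

theorem lift_even {h : A} (hh : h + h = 0) (h0 : ∑ a : A, a = h)
    (hcol : ∀ d, ∃ α : A ≃ A, ∀ a a' g, kk H ((T.t a)⁻¹ * d * T.t a') g = kk H (d * T.t (a' - α a)) g)
    {V : Multiset G} {E : Multiset (Sym2 G)} {a b : G} (hp : Path V E a b)
    (he : ∀ d, ∃ j, KE B E d = 2 * j * kk B d d) :
    ∃ (Φ : Equiv.Perm A) (Vx : A → Multiset G) (Ex : A → Multiset (Sym2 G)),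
      (∀ x, Path (Vx x) (Ex x) (a * T.t x) (b * T.t (Φ x))) ∧
      (∀ g, CV H (∑ x, Vx x) g = CV B V g) ∧
      ∀ g, Fintype.card A * KE H (∑ x, Ex x) g = KE B E g := by
  classical
  have key : ∀ (n : ℕ) (E : Multiset (Sym2 G)), Multiset.card E = n →
      (∀ d, ∃ j, KE B E d = 2 * j * kk B d d) → ∃ F, Multiset.Rel (T.IsLift ⊤) E F ∧
        ∀ g, Fintype.card A * KE H F.sum g = KE B E g := fun n => by
    induction n using Nat.strong_induction_on with
    | _ n ih =>
      intro E hn hE
      rcases E.empty_or_exists_mem with rfl | ⟨e, he⟩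
      · exact ⟨0, Multiset.Rel.zero, fun g => by simp [KE]⟩
      induction e using Sym2.ind with
      | _ u v =>
        have hc : Cls B (u⁻¹ * v) s(u, v) := ⟨u, v, rfl, 1, one_mem _, 1, one_mem _, by simp⟩
        generalize u⁻¹ * v = d at hc
        have hsp := Multiset.filter_add_not (Cls B d) E
        have h1 : ∀ e ∈ E.filter (Cls B d), Cls B d e := fun e h => (Multiset.mem_filter.1 h).2
        have h0' : 0 < Multiset.card (E.filter (Cls B d)) :=
          Multiset.card_pos_iff_exists_mem.2 ⟨_, Multiset.mem_filter.2 ⟨he, hc⟩⟩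
        have h2 : ∀ g, kk B d g ≠ 0 → KE B (E.filter fun e => ¬ Cls B d e) g = 0 := fun g hg =>
          Multiset.sum_eq_zero fun m hm => by
            obtain ⟨e, h3, rfl⟩ := Multiset.mem_map.1 hm
            by_contra h4
            refine (Multiset.mem_filter.1 h3).2 (cls_of_ke ?_)
            have h5 : Cls B g s(1, d) := cls_of_ke (by rwa [ke_mk, inv_one, one_mul])
            rw [ke_cls (cls_of_ke h4), ← ke_cls h5, ke_mk, inv_one, one_mul]
            exact (kk_self_pos B d).ne'
        have h3 : ∀ g, KE B E g = Multiset.card (E.filter (Cls B d)) * kk B d g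
            + KE B (E.filter fun e => ¬ Cls B d e) g := fun g => by
          rw [← KE_cls h1, ← KE_add, hsp]
        have h4 := h3 d
        rw [h2 d (kk_self_pos B d).ne', add_zero] at h4
        obtain ⟨j, hj⟩ := hE d
        have h5 : j * 2 = Multiset.card (E.filter (Cls B d)) :=
          Nat.eq_of_mul_eq_mul_right (kk_self_pos B d) (by rw [← h4, hj, mul_comm j])
        obtain ⟨Θ, h6, h7, h8⟩ := h5 ▸ (T.even_bal hh h0 hcol d).mul j
        obtain ⟨F1, h9, h10⟩ := T.lift_class (Γ := ⊤) (fun b hb =>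
          (T.exists_act hb).imp fun _ k => ⟨Subgroup.mem_top _, k⟩) d _ h1 Θ h6 h7
        have h11 := congrArg Multiset.card hsp
        rw [Multiset.card_add] at h11
        obtain ⟨F2, h12, h13⟩ := ih _ (by omega) (E.filter fun e => ¬ Cls B d e) rfl fun g => by
          by_cases hg : kk B d g = 0
          · have := h3 g
            rw [hg, mul_zero, zero_add] at this
            exact this ▸ hE g
          · exact ⟨0, by rw [h2 g hg]; simp⟩
        refine ⟨F1 + F2, hsp ▸ h9.add h12, fun g => ?_⟩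
        rw [Multiset.sum_add, KE_add, mul_add, h13, h10, h8, h3]
  obtain ⟨F, h1, h2⟩ := key _ E rfl he
  obtain ⟨Φ, -, Vx, Ex, k1, k2, k3⟩ := T.strands ⊤ hp F h1
  exact ⟨Φ, Vx, Ex, k1, k2, fun g => by rw [k3, h2]⟩

end TV

end Pool.Agent.Lib.MP_0becda_co.Coset
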