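import Pool.Agent.Lib.MP_0becda_co.Coset.Cell

/-!
Folding a run of opposite cosets so that each step cancels the defect of its mirror image.
-/

set_option linter.unusedSectionVars false

open Finset Pool.Agent.Lib.MP_0becda_co.PSL

namespace Pool.Agent.Lib.MP_0becda_co.Coset

theorem fold_back {A : Type} [AddCommGroup A] (α : A ≃+ A) (w : ℕ → A) (M : ℕ) :
    ∃ ρ : ℕ → A, ρ M = 0 ∧ ∀ i < M, ρ (i + 1) = α (ρ i) + w i := by
  obtain ⟨r, r0, r1⟩ : ∃ r : ℕ → A, r 0 = 0 ∧ ∀ j, r (j + 1) = α.symm (r j - w (M - (j + 1))) :=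
    ⟨fun j => Nat.rec 0 (fun j r => α.symm (r - w (M - (j + 1)))) j, rfl, fun _ => rfl⟩
  refine ⟨fun i => r (M - i), by simp [r0], fun i hi => ?_⟩
  have e : M - i = M - (i + 1) + 1 := by omega
  simp only [e, r1]
  rw [AddEquiv.apply_symm_apply, show M - (M - (i + 1) + 1) = i by omega, sub_add_cancel]

theorem fold_sum (f : ℕ → ℕ) (M : ℕ) :
    ∑ i ∈ range (M + M), f i = ∑ i ∈ range M, (f i + f (M + (M - 1 - i))) := by
  rw [sum_range_add, sum_add_distrib, sum_range_reflect (fun i => f (M + i)) M]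

variable {G : Type} [Group G] [Fintype G]

namespace TV

variable {H B : Subgroup G} {A : Type} [AddCommGroup A] [Fintype A] (T : TV H B A)

theorem fold (hfib : ∀ a a' g, kk H ((T.t a)⁻¹ * T.t a') g = kk H ((T.t 0)⁻¹ * T.t (a' - a)) g)
    (α : A ≃+ A) (F : A → G → ℕ) (D : G → Prop) (hdom : ∀ d, D d → ∃ ω, ∀ a a' g,
      kk H ((T.t a)⁻¹ * d * T.t a') g = F (a' - α a + ω) g) {k : G → ℕ}
    (hF : ∀ g, Fintype.card A * ∑ c, F c g = k g) {h : A} (hh : h + h = 0) (h0 : ∑ a : A, a = h)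
    {m : ℕ} (hm : Fintype.card A = m + 1) (l' : ℕ → A)
    (l3 : ∀ i < m + 1, ∀ j < m + 1, l' i = l' j → i = j)
    (l4 : ∀ i < m, ∀ j < m, l' (i + 1) - l' i = l' (j + 1) - l' j → i = j)
    (z : ℕ → G) (hz : ∀ i < 4 * m + 2, D ((z i)⁻¹ * z (i + 1)) ∧ D ((z (i + 1))⁻¹ * z i))
    {x o : G} (hx : D (x⁻¹ * z 0)) (ho : D ((z 0)⁻¹ * o))
    (Φ : Equiv.Perm A) (Vx : A → Multiset G) (Ex : A → Multiset (Sym2 G))
    (hp : ∀ c, Path (Vx c) (Ex c) (z (4 * m + 2) * T.t c) (x * T.t (Φ c)))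
    (hV : ∀ g, ∑ i ∈ range (4 * m + 2), ind ((z i)⁻¹ * g ∈ B) + ind (o⁻¹ * g ∈ B)
      + CV H (∑ c, Vx c) g = 1) (x0 x1 : A)
    (hE : ∀ g, Fintype.card A * (KE H (∑ c, Ex c) g + F x0 g) + (4 * m + 3) * k g
      = Fintype.card A * F x1 g + 2 * cd B * ind (g ∉ B)) : CT H := by
  classical
  choose! ω hω using hdom
  obtain ⟨p, hp'⟩ := exists_bundle α.toEquiv (fun x => if x = 0 then h else x) (by
    rw [← add_sum_erase _ _ (mem_univ 0), if_pos rfl, sum_congr rfl fun x hx =>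
      if_neg (mem_erase.1 hx).1, Finset.sum_erase (f := fun x : A => x) _ rfl, h0, hh])
  have hq : ∀ (c : A) g, ∑ a, F (p a - α a + c) g + F c g = ∑ a, F a g + F (h + c) g :=
    fun c g => by
      rw [show ∑ a, F (p a - α a + c) g = _ from hp' fun x => F (x + c) g,
        ← Equiv.sum_comp (Equiv.addRight c) fun a => F a g,
        ← add_sum_erase _ _ (mem_univ 0), ← add_sum_erase _ _ (mem_univ 0), if_pos rfl,
        sum_congr rfl fun x hx => by rw [if_neg (mem_erase.1 hx).1]]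
      simp only [Equiv.coe_addRight, zero_add]
      omega
  have ed : ∀ u v, D (u⁻¹ * v) → ∀ a a' g, ke H s(u * T.t a, v * T.t a') g
      = F (a' - α a + ω (u⁻¹ * v)) g := fun u v hd a a' g => by
    rw [ke_mk, ← hω _ hd]
    congr 1
    group
  have f1 : ∀ (u : G) (c : A) g, ∑ j ∈ range m, ke H s(u * T.t (l' j + c), u * T.t (l' (j + 1) + c)) g
      = 2 * cd H * ind (g ∈ B ∧ g ∉ H) := fun u c g => by
    obtain ⟨μ, hμ⟩ := exists_missing (u := fun j => l' (j + 1) - l' j) hm l4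
    have e1 := hμ fun a => ind (a = 0)
    rw [sum_ind_eq, sum_eq_zero fun j hj => ind_neg fun h => by
      have := l3 _ (by simpa using hj) _ (by have := mem_range.1 hj; omega) (sub_eq_zero.1 h)
      omega] at e1
    obtain rfl : μ = 0 := by_contra fun h => by simp [ind_neg h] at e1
    have e2 := hμ fun a => kk H ((T.t 0)⁻¹ * T.t a) g
    rw [← add_sum_erase _ _ (mem_univ 0), T.sum_erase, add_comm, add_right_inj] at e2
    rw [← e2]
    exact sum_congr rfl fun j _ => by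
      rw [ke_mk, mul_inv_rev, mul_assoc, inv_mul_cancel_left, hfib, add_sub_add_right_eq_sub]
  obtain ⟨l, l1, -, l2⟩ := exists_enum A hm
  obtain ⟨M, hM⟩ : ∃ M, M = 2 * m + 1 := ⟨_, rfl⟩
  have hN : 4 * m + 2 = M + M := by omega
  rw [hN] at hz hp hV
  obtain ⟨ρ, r0, r1⟩ := fold_back α (fun i => h + ω ((z i)⁻¹ * z (i + 1))
    - ω ((z (M + M - i))⁻¹ * z (M + M - (i + 1)))) M
  obtain ⟨S, s1, s2⟩ : ∃ S : ℕ → A,
      (∀ j, (p ^ (2 * j + 1)) (l j) - α ((p ^ (2 * j)) (l j)) + S (2 * j)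
        = l j - α (Φ (l j + ρ 0)) + ω (x⁻¹ * z 0)) ∧
      ∀ j, (p ^ (2 * j + 1 + 1)) (l (j + 1)) - α ((p ^ (2 * j + 1)) (l j)) + S (2 * j + 1)
        = l j + x1 :=
    ⟨fun i => if i % 2 = 0 then l (i / 2) - α (Φ (l (i / 2) + ρ 0)) + ω (x⁻¹ * z 0)
        - ((p ^ (i + 1)) (l (i / 2)) - α ((p ^ i) (l (i / 2))))
      else l (i / 2) + x1 - ((p ^ (i + 1)) (l (i / 2 + 1)) - α ((p ^ i) (l (i / 2)))),
      fun j => by
        simp only [if_pos (show 2 * j % 2 = 0 by omega), show 2 * j / 2 = j by omega]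
        exact add_sub_cancel _ _,
      fun j => by
        simp only [if_neg (show ¬ (2 * j + 1) % 2 = 0 by omega), show (2 * j + 1) / 2 = j by omega]
        exact add_sub_cancel _ _⟩
  obtain ⟨κ, k0, k1⟩ : ∃ κ : ℕ → A, κ 0 = 0 ∧ ∀ i, κ (i + 1)
      = α (κ i) - ω ((z i)⁻¹ * z (i + 1)) + S i :=
    ⟨fun j => Nat.rec 0 (fun i κ => α κ - ω ((z i)⁻¹ * z (i + 1)) + S i) j, rfl, fun _ => rfl⟩
  obtain ⟨v, v1, v2⟩ : ∃ v : A → ℕ → G, (∀ a, ∀ i ≤ M, v a i = z i * T.t ((p ^ i) a + κ i)) ∧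
      ∀ a, ∀ i ≤ M, ∀ j, i + j = M + M → v a j = z j * T.t ((p ^ i) a + (κ i + ρ i)) :=
    ⟨fun a j => if j ≤ M then z j * T.t ((p ^ j) a + κ j)
      else z j * T.t ((p ^ (M + M - j)) a + (κ (M + M - j) + ρ (M + M - j))),
      fun a i hi => if_pos hi, fun a i hi j hj => by
        by_cases h1 : j ≤ M
        · obtain rfl : j = i := by omega
          obtain rfl : j = M := by omega
          simp only [if_pos h1, r0, add_zero]
        · simp only [if_neg h1, show M + M - j = i by omega]⟩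
  have c1 : ∀ i < M, ∀ a a' g, ke H s(v a i, v a' (i + 1)) g
      = F ((p ^ (i + 1)) a' - α ((p ^ i) a) + S i) g := fun i hi a a' g => by
    rw [v1 a i hi.le, v1 a' (i + 1) hi, ed _ _ (hz i (by omega)).1, k1, map_add]
    congr 1
    abel
  have c2 : ∀ i < M, ∀ j, i + 1 + j = M + M → ∀ a g, ke H s(v a j, v a (j + 1)) g
      = F ((p ^ (i + 1)) a - α ((p ^ i) a) + (h + S i)) g := fun i hi j hj a g => by
    rw [v2 a (i + 1) hi j hj, v2 a i hi.le (j + 1) (by omega), Sym2.eq_swap,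
      ed _ _ (hz j (by omega)).2, k1, r1 i hi, show M + M - i = j + 1 by omega,
      show M + M - (i + 1) = j by omega, map_add, map_add]
    congr 1
    abel
  have c3 : ∀ g, ∑ a, ∑ i ∈ range (M + M), ke H s(v a i, v a (i + 1)) g
      = (M + M) * ∑ c, F c g := fun g => by
    rw [sum_comm, fold_sum, sum_congr rfl (g := fun _ => 2 * ∑ c, F c g) fun i hi => ?_, sum_const,
      card_range, smul_eq_mul]
    · ring
    have hi := mem_range.1 hi
    have e1 := hq (S i) g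
    have e2 := hq (h + S i) g
    rw [← add_assoc h h, hh, zero_add] at e2
    rw [← Equiv.sum_comp (p ^ i) fun a => F (p a - α a + S i) g] at e1
    rw [← Equiv.sum_comp (p ^ i) fun a => F (p a - α a + (h + S i)) g] at e2
    simp only [c1 i hi, c2 i hi (M + (M - 1 - i)) (by omega), pow_succ', Equiv.Perm.mul_apply]
    omega
  have c4 : ∀ a, v a (M + M) = z (M + M) * T.t (a + ρ 0) := fun a => by
    rw [v2 a 0 (by omega) _ (by omega), k0, zero_add, pow_zero, Equiv.Perm.one_apply]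
  have c0 : ∀ a, v a 0 = z 0 * T.t a := fun a => by
    rw [v1 a 0 (by omega), k0, add_zero, pow_zero, Equiv.Perm.one_apply]
  have c5 : ∀ j ≤ m, ∃ E', Path (∑ i ∈ range (M + M), {v (l j) i} + Vx (l j + ρ 0)) E'
      (v (l j) (2 * j + 1)) (v (l j) (2 * j)) ∧ ∀ g, KE H E' g
      = ∑ i ∈ range (M + M), ke H s(v (l j) i, v (l j) (i + 1)) g
        + KE H (Ex (l j + ρ 0)) g := fun j hj => by
    obtain ⟨r, hr⟩ : ∃ r, M + M = 2 * j + 1 + r + 1 := ⟨M + M - (2 * j + 2), by omega⟩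
    refine ⟨_, (((path_seq (fun i => v (l j) (2 * j + 1 + i)) r).append (hp (l j + ρ 0))).append
      (path_seq (v (l j)) (2 * j))).congr ?_ rfl rfl rfl, fun g => ?_⟩
    · rw [hr, add_assoc (2 * j + 1), sum_cut]; abel
    have e1 : ke H s(x * T.t (Φ (l j + ρ 0)), v (l j) 0) g
        = ke H s(v (l j) (2 * j), v (l j) (2 * j + 1)) g := by
      rw [c1 (2 * j) (by omega), s1, c0, ed _ _ hx]
    rw [KE_add, KE_add, KE_cons, KE_cons, KE_sum, KE_sum, e1, ← c4, hr, sum_range_succ, sum_cut,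
      sum_range_succ]
    simp only [add_assoc (2 * j + 1)]
    ring
  choose! E' e1 e2 using c5
  obtain ⟨c, hc⟩ : ∃ c, l' 0 + c - α (l 0) + ω ((z 0)⁻¹ * o) = x0 :=
    ⟨x0 - ω ((z 0)⁻¹ * o) + α (l 0) - l' 0, by abel⟩
  refine ⟨_, _, _, _, (chain_paths _ _ _ _ m e1).append (path_seq (fun j => o * T.t (l' j + c)) m),
    fun g => ?_, fun g => ?_⟩
  · rw [CV_add, l2 fun a => ∑ i ∈ range (M + M), {v a i} + Vx (a + ρ 0), sum_add_distrib,
      show ∑ a, Vx (a + ρ 0) = _ from Equiv.sum_comp (Equiv.addRight (ρ 0)) Vx, CV_add, sum_comm,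
      CV_sum', sum_enum hm l3 fun a => ({o * T.t (a + c)} : Multiset G),
      show CV H (∑ a, {o * T.t (a + c)}) g = _ from T.cv_fib _ g (Equiv.addRight c), ← hV g,
      add_right_comm]
    congr 2
    refine sum_congr rfl fun i hi => ?_
    have hi := mem_range.1 hi
    by_cases h1 : i ≤ M
    · rw [← T.cv_fib _ g ((p ^ i).trans (Equiv.addRight (κ i)))]
      simp only [v1 _ i h1]
      rfl
    · rw [← T.cv_fib _ g ((p ^ (M + M - i)).trans
        (Equiv.addRight (κ (M + M - i) + ρ (M + M - i))))]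
      simp only [v2 _ (M + M - i) (by omega) i (by omega)]
      rfl
  have f2 := l2 fun a => F (a + x1) g
  rw [sum_range_succ, l1, zero_add,
    show ∑ a, F (a + x1) g = _ from Equiv.sum_comp (Equiv.addRight x1) fun a => F a g] at f2
  have f3 := hE g
  rw [← hF, ← T.card_mul, mul_left_comm (4 * m + 3), ← mul_add, mul_left_comm 2, mul_assoc,
    ← mul_add] at f3
  have f4 := Nat.eq_of_mul_eq_mul_left T.card_pos f3
  have f5 : 2 * cd H * ind (g ∉ B) + 2 * cd H * ind (g ∈ B ∧ g ∉ H) = 2 * cd H * ind (g ∉ H) := by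
    rw [← mul_add]
    congr 1
    by_cases h1 : g ∈ H
    · simp [h1, T.le h1, ind_neg]
    · by_cases h2 : g ∈ B <;> simp [h1, h2, ind_pos, ind_neg]
  rw [KE_add, KE_cons, KE_add, KE_sum', KE_sum, KE_sum, f1,
    sum_congr rfl fun j hj => e2 j (Nat.le_of_lt_succ (mem_range.1 hj)) g,
    l2 fun a => ∑ i ∈ range (M + M), ke H s(v a i, v a (i + 1)) g + KE H (Ex (a + ρ 0)) g,
    sum_add_distrib, c3,
    show ∑ a, KE H (Ex (a + ρ 0)) g = _ from
      Equiv.sum_comp (Equiv.addRight (ρ 0)) fun a => KE H (Ex a) g, ← KE_sum',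
    sum_congr rfl (g := fun j => F (l j + x1) g) fun j hj => by
      rw [Sym2.eq_swap, show 2 * (j + 1) = 2 * j + 1 + 1 by ring,
        c1 (2 * j + 1) (by have := mem_range.1 hj; omega), s2],
    mul_zero, c0, ed _ _ ho, hc, ← f5, ← hN]
  nlinarith

end TV

end Pool.Agent.Lib.MP_0becda_co.Coset
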