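import Pool.Agent.Lib.MP_0becda_co.Coset.Cell

/-!
Links and gadgets: bundles of strands that exchange one colour.
-/

set_option linter.unusedSectionVars false

open Finset Pool.Agent.Lib.MP_0becda_co.PSL

namespace Pool.Agent.Lib.MP_0becda_co.Coset

theorem gad_near {A : Type} [AddCommGroup A] [Fintype A] (β : A ≃ A) {h : A} (hh : h + h = 0)
    (h0 : ∑ a : A, a = h) : ∃ (p : Equiv.Perm A) (e : A), p e - β e = h ∧
      ∀ Φ : A → ℕ, ∑ a, Φ (p a - β a) + Φ 0 = ∑ a, Φ a + Φ h := by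
  classical
  obtain ⟨p, hp⟩ := exists_bundle β (fun x => if x = 0 then h else x) (by
    rw [← add_sum_erase _ _ (mem_univ 0), if_pos rfl, sum_congr rfl fun x hx =>
      if_neg (mem_erase.1 hx).1, Finset.sum_erase (f := fun x : A => x) _ rfl, h0, hh])
  have hq : ∀ Φ : A → ℕ, ∑ a, Φ (p a - β a) + Φ 0 = ∑ a, Φ a + Φ h := fun Φ => by
    have k1 := add_sum_erase _ (fun x => Φ x) (mem_univ 0)
    have k2 := add_sum_erase _ (fun x => Φ (if x = 0 then h else x)) (mem_univ 0)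
    have k3 : ∑ x ∈ univ.erase 0, Φ (if x = 0 then h else x) = ∑ x ∈ univ.erase 0, Φ x :=
      sum_congr rfl fun x hx => by rw [if_neg (mem_erase.1 hx).1]
    rw [if_pos rfl] at k2
    rw [hp Φ]
    omega
  obtain ⟨e, he⟩ : ∃ e, p e - β e = h := by
    by_contra c
    have := hp fun x => ind (x = h)
    rw [sum_eq_zero fun a _ => ind_neg fun e => c ⟨a, e⟩, ← add_sum_erase _ _ (mem_univ 0),
      if_pos rfl, ind_pos rfl] at this
    omega
  exact ⟨p, e, he, hq⟩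

theorem gad_bundle {A : Type} [AddCommGroup A] [Fintype A] (α : A ≃+ A) {h : A} (hh : h + h = 0)
    (h0 : ∑ a : A, a = h) (ω κ b : A) : ∃ σ : Equiv.Perm A, ∀ Φ : A → ℕ,
      ∑ x, Φ (x - α (σ.symm x) + ω) + Φ κ = ∑ a, Φ a + Φ (b - α (σ.symm b) + ω) := by
  obtain ⟨p, e, he, hq⟩ := gad_near α.toEquiv hh h0
  obtain ⟨s, hs⟩ := α.surjective (κ - (b - p e) - ω)
  let σ : Equiv.Perm A := ((Equiv.addRight s).trans p).trans (Equiv.addRight (b - p e))
  have h1 : ∀ a, σ a - α a + ω = p (a + s) - α (a + s) + κ := fun a => by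
    change p (a + s) + (b - p e) - α a + ω = _
    rw [map_add α, hs]
    abel
  have h2 : σ (e - s) = b := by
    change p (e - s + s) + (b - p e) = b
    rw [sub_add_cancel, add_sub_cancel]
  refine ⟨σ, fun Φ => ?_⟩
  have h3 := hq fun x => Φ (x + κ)
  have h4 := h1 (e - s)
  rw [h2, sub_add_cancel, show p e - α e = h from he] at h4
  rw [← Equiv.sum_comp σ, σ.symm_apply_eq.2 h2.symm, h4, ← Equiv.sum_comp (Equiv.addRight κ) Φ]
  simp only [Equiv.symm_apply_apply, h1]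
  rw [show ∑ a, Φ (p (a + s) - α (a + s) + κ) = ∑ a, Φ (p a - α a + κ) from
    Equiv.sum_comp (Equiv.addRight s) fun a => Φ (p a - α a + κ)]
  simpa using h3

theorem gad_two {A : Type} [Fintype A] (f g : A → ℕ) {a b : A} (ne : b ≠ a)
    (e : ∀ x, x ≠ a → x ≠ b → f x = g x) : ∑ x, f x + (g a + g b) = ∑ x, g x + (f a + f b) := by
  classical
  have m : b ∈ univ.erase a := mem_erase.2 ⟨ne, mem_univ _⟩
  have k1 := add_sum_erase _ (fun x => f x) (mem_univ a)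
  have k2 := add_sum_erase _ (fun x => g x) (mem_univ a)
  have k3 := add_sum_erase _ (fun x => f x) m
  have k4 := add_sum_erase _ (fun x => g x) m
  have k5 : ∑ x ∈ (univ.erase a).erase b, f x = ∑ x ∈ (univ.erase a).erase b, g x :=
    sum_congr rfl fun x hx => e x (mem_erase.1 (mem_erase.1 hx).2).1 (mem_erase.1 hx).1
  omega

variable {G : Type} [Group G] [Fintype G]

theorem gad_cv (H : Subgroup G) (v : G) (V : Multiset G) (g : G) :
    CV H (v ::ₘ V) g = ind (v⁻¹ * g ∈ H) + CV H V g := by simp [CV]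

namespace TV

variable {H B : Subgroup G} {A : Type} [AddCommGroup A] [Fintype A] (T : TV H B A)

theorem gad_ed {Φ : A → ℕ} {f : A → A → A} {u v g : G}
    (hω : ∀ a a', kk H ((T.t a)⁻¹ * (u⁻¹ * v) * T.t a') g = Φ (f a a')) (a a' : A) :
    ke H s(u * T.t a, v * T.t a') g = Φ (f a a') := by
  rw [ke_mk, ← hω]
  congr 1
  group

theorem link (α : A ≃+ A) (F : A → G → ℕ) (D : G → Prop) (hdom : ∀ d, D d → ∃ ω, ∀ a a' g,
      kk H ((T.t a)⁻¹ * d * T.t a') g = F (a' - α a + ω) g) {k : G → ℕ}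
    (hF : ∀ g, Fintype.card A * ∑ c, F c g = k g) {h : A} (hh : h + h = 0) (h0 : ∑ a : A, a = h)
    {u u' : G} (d1 : D (u⁻¹ * u')) (Vx : A → Multiset G) (Ex : A → Multiset (Sym2 G)) (en : A → G)
    (hp : ∀ c, Path (Vx c) (Ex c) (u' * T.t c) (en c)) (x1 : A) :
    ∃ (x2 : A) (Φ : Equiv.Perm A) (Vx' : A → Multiset G) (Ex' : A → Multiset (Sym2 G)),
      (∀ c, Path (Vx' c) (Ex' c) (u * T.t c) (en (Φ c))) ∧
      (∀ g, CV H (∑ c, Vx' c) g = CV H (∑ c, Vx c) g + ind (u⁻¹ * g ∈ B)) ∧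
      ∀ g, Fintype.card A * (KE H (∑ c, Ex' c) g + F x1 g)
        = Fintype.card A * (KE H (∑ c, Ex c) g + F x2 g) + k g := by
  obtain ⟨ω, hω⟩ := hdom _ d1
  obtain ⟨σ, hσ⟩ := gad_bundle α hh h0 ω x1 0
  refine ⟨0 - α (σ.symm 0) + ω, σ, _, _, fun c => Path.cons _ _ _ _ _ (hp (σ c)), fun g => ?_,
    fun g => ?_⟩
  · rw [← T.cv_fib u g (Equiv.refl A), CV_sum, CV_sum', CV_sum', ← Equiv.sum_comp σ fun c => CV H (Vx c) g,
      ← sum_add_distrib]
    exact sum_congr rfl fun c _ => by rw [gad_cv, add_comm]; rfl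
  · have e1 := hσ fun x => F x g
    rw [← Equiv.sum_comp σ] at e1
    simp only [Equiv.symm_apply_apply] at e1
    rw [KE_sum', KE_sum', ← Equiv.sum_comp σ fun c => KE H (Ex c) g, ← hF, ← mul_add]
    simp only [KE_cons, sum_add_distrib, T.gad_ed (Φ := fun x => F x g)
      (f := fun a a' => a' - α a + ω) fun a a' => hω a a' g]
    congr 1
    omega

theorem gadget (α : A ≃+ A) (F : A → G → ℕ) (D : G → Prop) (hdom : ∀ d, D d → ∃ ω, ∀ a a' g,
      kk H ((T.t a)⁻¹ * d * T.t a') g = F (a' - α a + ω) g) {k : G → ℕ}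
    (hF : ∀ g, Fintype.card A * ∑ c, F c g = k g) {h : A} (hh : h + h = 0) (h0 : ∑ a : A, a = h)
    (hne : h ≠ 0)
    (hcol : ∀ d, ∃ β : A ≃ A, ∀ a a' g, kk H ((T.t a)⁻¹ * d * T.t a') g = kk H (d * T.t (a' - β a)) g)
    {u y z u' : G} (d1 : D (u⁻¹ * y)) (d2 : D (u⁻¹ * z)) (d3 : D (u'⁻¹ * y)) (d4 : D (u'⁻¹ * z))
    (Vx : A → Multiset G) (Ex : A → Multiset (Sym2 G)) (en : A → G)
    (hp : ∀ c, Path (Vx c) (Ex c) (u' * T.t c) (en c)) (x1 : A) :
    ∃ (x2 : A) (Φ : Equiv.Perm A) (Vx' : A → Multiset G) (Ex' : A → Multiset (Sym2 G)),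
      (∀ c, Path (Vx' c) (Ex' c) (u * T.t c) (en (Φ c))) ∧
      (∀ g, CV H (∑ c, Vx' c) g = CV H (∑ c, Vx c) g
        + (ind (u⁻¹ * g ∈ B) + ind (y⁻¹ * g ∈ B) + ind (z⁻¹ * g ∈ B))) ∧
      ∀ g, Fintype.card A * (KE H (∑ c, Ex' c) g + F x1 g)
        = Fintype.card A * (KE H (∑ c, Ex c) g + F x2 g) + (2 * k g + kk B (y⁻¹ * z) g) := by
  classical
  obtain ⟨ω1, w1⟩ := hdom _ d1
  obtain ⟨ω2, w2⟩ := hdom _ d2
  obtain ⟨ω3, w3⟩ := hdom _ d3
  obtain ⟨ω4, w4⟩ := hdom _ d4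
  obtain ⟨β, hβ⟩ := hcol (y⁻¹ * z)
  obtain ⟨q, a, ha, hq⟩ := gad_near β hh h0
  obtain ⟨b, hb⟩ := q.surjective (q a + h)
  have ne : b ≠ a := fun e => hne (by rw [e] at hb; exact left_eq_add.1 hb)
  obtain ⟨σ, hσ⟩ := gad_bundle α hh h0 ω1 x1 b
  obtain ⟨τ, hτ⟩ := gad_bundle α hh h0 ω4 (q a - α (σ.symm b) + ω2) (q b)
  let ρ : Equiv.Perm A := q.trans τ.symm
  let V' : A → Multiset G := fun x =>
    if x = a then (u * T.t (σ.symm x)) ::ₘ (y * T.t a) ::ₘ (z * T.t (q b)) ::ₘ (y * T.t b) ::ₘ Vx (ρ b)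
    else if x = b then (u * T.t (σ.symm x)) ::ₘ (z * T.t (q a)) ::ₘ Vx (ρ a)
    else (u * T.t (σ.symm x)) ::ₘ (y * T.t x) ::ₘ (z * T.t (q x)) ::ₘ Vx (ρ x)
  let E' : A → Multiset (Sym2 G) := fun x =>
    if x = a then s(u * T.t (σ.symm x), y * T.t a) ::ₘ s(y * T.t a, z * T.t (q b)) ::ₘ
      s(z * T.t (q b), y * T.t b) ::ₘ s(y * T.t b, u' * T.t (ρ b)) ::ₘ Ex (ρ b)
    else if x = b then s(u * T.t (σ.symm x), z * T.t (q a)) ::ₘ
      s(z * T.t (q a), u' * T.t (ρ a)) ::ₘ Ex (ρ a)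
    else s(u * T.t (σ.symm x), y * T.t x) ::ₘ s(y * T.t x, z * T.t (q x)) ::ₘ
      s(z * T.t (q x), u' * T.t (ρ x)) ::ₘ Ex (ρ x)
  have pa : ∀ x, Path (V' x) (E' x) (u * T.t (σ.symm x)) (en (ρ (Equiv.swap a b x))) := fun x => by
    simp only [V', E']
    split_ifs with c1 c2
    · rw [c1, Equiv.swap_apply_left]
      exact .cons _ _ _ _ _ (.cons _ _ _ _ _ (.cons _ _ _ _ _ (.cons _ _ _ _ _ (hp _))))
    · rw [c2, Equiv.swap_apply_right]
      exact .cons _ _ _ _ _ (.cons _ _ _ _ _ (hp _))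
    · rw [Equiv.swap_apply_of_ne_of_ne c1 c2]
      exact .cons _ _ _ _ _ (.cons _ _ _ _ _ (.cons _ _ _ _ _ (hp _)))
  refine ⟨b - α (ρ b) + ω3, (σ.trans (Equiv.swap a b)).trans ρ, fun c => V' (σ c),
    fun c => E' (σ c), fun c => (pa (σ c)).congr rfl rfl (by rw [Equiv.symm_apply_apply]) rfl,
    fun g => ?_, fun g => ?_⟩
  · have e1 := gad_two (fun x => CV H (V' x) g) (fun x => ind ((u * T.t (σ.symm x))⁻¹ * g ∈ H) +
      (ind ((y * T.t x)⁻¹ * g ∈ H) + (ind ((z * T.t (q x))⁻¹ * g ∈ H) + CV H (Vx (ρ x)) g))) ne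
      fun x c1 c2 => by simp only [V', if_neg c1, if_neg c2, gad_cv]
    have f1 := T.cv_fib u g σ.symm
    have f2 := T.cv_fib y g (Equiv.refl A)
    have f3 := T.cv_fib z g q
    rw [CV_sum] at f1 f2 f3
    simp only [Equiv.refl_apply] at f2
    simp only [sum_add_distrib, f1, f2, f3] at e1
    rw [Equiv.sum_comp ρ fun c => CV H (Vx c) g] at e1
    rw [CV_sum', CV_sum', Equiv.sum_comp σ fun x => CV H (V' x) g]
    have a1 : V' a = _ := if_pos rfl
    have a2 : V' b = _ := (if_neg ne).trans (if_pos rfl)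
    rw [a1, a2] at e1
    simp only [gad_cv] at e1
    omega
  · have k1 := T.gad_ed (Φ := fun x => F x g) (f := fun a a' => a' - α a + ω1) fun a a' => w1 a a' g
    have k2 := T.gad_ed (Φ := fun x => F x g) (f := fun a a' => a' - α a + ω2) fun a a' => w2 a a' g
    have k3 : ∀ c c', ke H s(y * T.t c', u' * T.t c) g = F (c' - α c + ω3) g := fun c c' => by
      rw [Sym2.eq_swap]
      exact T.gad_ed (Φ := fun x => F x g) (f := fun a a' => a' - α a + ω3) (fun a a' => w3 a a' g) _ _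
    have k4 : ∀ c c', ke H s(z * T.t c', u' * T.t c) g = F (c' - α c + ω4) g := fun c c' => by
      rw [Sym2.eq_swap]
      exact T.gad_ed (Φ := fun x => F x g) (f := fun a a' => a' - α a + ω4) (fun a a' => w4 a a' g) _ _
    have k5 := T.gad_ed (Φ := fun x => kk H (y⁻¹ * z * T.t x) g) (f := fun a a' => a' - β a)
      fun a a' => hβ a a' g
    have k6 : ∀ c c', ke H s(z * T.t c', y * T.t c) g = kk H (y⁻¹ * z * T.t (c' - β c)) g :=
      fun c c' => by rw [Sym2.eq_swap, k5]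
    have e1 := gad_two (fun x => KE H (E' x) g) (fun x => F (x - α (σ.symm x) + ω1) g +
      (kk H (y⁻¹ * z * T.t (q x - β x)) g + (F (q x - α (ρ x) + ω4) g + KE H (Ex (ρ x)) g))) ne
      fun x c1 c2 => by simp only [E', if_neg c1, if_neg c2, KE_cons, k1, k4, k5]
    have a1 : E' a = _ := if_pos rfl
    have a2 : E' b = _ := (if_neg ne).trans (if_pos rfl)
    rw [a1, a2] at e1
    have f1 := hσ fun x => F x g
    have f2 := hτ fun x => F x g
    have f3 := hq fun x => kk H (y⁻¹ * z * T.t x) g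
    have f4 : q b - β a = 0 := by rw [hb, add_sub_right_comm, ha, hh]
    rw [← Equiv.sum_comp q] at f2
    simp only [sum_add_distrib, KE_cons, k1, k2, k3, k4, k5, k6, ha, f4] at e1
    rw [Equiv.sum_comp ρ fun c => KE H (Ex c) g] at e1
    rw [KE_sum', KE_sum', Equiv.sum_comp σ fun x => KE H (E' x) g, ← hF,
      ← T.col_sum (F := fun x => kk H (y⁻¹ * z * T.t x) g) (u := β) fun a a' => hβ a a' g,
      mul_left_comm, ← mul_add, ← mul_add]
    congr 1
    change _ + _ = _ + F (q b - α (ρ b) + ω4) g at f2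
    change ∑ x, F (q x - α (ρ x) + ω4) g + _ = _ at f2
    omega

end TV

end Pool.Agent.Lib.MP_0becda_co.Coset
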