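import Pool.Agent.Lib.MP_0becda_co.Cyc.Base
import Pool.Agent.Lib.MP_0becda_co.Cyc.Even
import Pool.Agent.Lib.MP_0becda_co.Cyc.Chain
import Pool.Agent.Lib.MP_0becda_co.Cyc.Fold
import Pool.Agent.Lib.MP_0becda_co.Coset.OddStep

/-!
A large double coset above an abelian quotient, with exceptional small double cosets.
-/

set_option linter.unusedSectionVars false

open Finset Pool.Agent.Lib.MP_0becda_co.PSL

namespace Pool.Agent.Lib.MP_0becda_co.Coset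

variable {G : Type} [Group G] [Fintype G]

theorem ct_cyc (H B : Subgroup G) (w : G) (S : Finset G) (hle : H ≤ B)
    (hc : ∀ a ∈ B, ∀ b ∈ B, a * b * a⁻¹ * b⁻¹ ∈ H)
    (hi : ∀ b ∈ B, ∃ k : ℕ, b ^ 2 ^ k ∈ H)
    (h2 : ∀ d, ∀ b ∈ B, ∃ s ∈ B, d⁻¹ * s * d ∈ B ∧ s⁻¹ * b ∈ H)
    (h3 : ∀ d, ∀ s ∈ H, d⁻¹ * s * d ∈ B → d⁻¹ * s * d ∈ H)
    (h4 : ∀ d ∉ B, (¬ ∃ a ∈ B, ∃ b ∈ B, d = a * w * b) →
      (¬ ∃ s ∈ S, ∃ a ∈ B, ∃ b ∈ B, d = a * s * b) → ∃ θ : G → G, (∀ a ∈ B, θ a ∈ B) ∧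
      ∀ a ∈ B, ∀ a' ∈ B, ((θ a)⁻¹ * θ a' ∈ H ∨
        ∃ x ∈ H, ∃ y ∈ H, a'⁻¹ * d * θ a' = x * (a⁻¹ * d * θ a) * y) → a⁻¹ * a' ∈ H)
    (hw : 3 * Nat.card G + 8 * (H.relIndex B - 1 + 2 * S.card) * Nat.card B
      < 4 * Nat.card {g : G // ∃ a ∈ B, ∃ b ∈ B, g = a * w * b}) : CT H := by
  classical
  rcases S.eq_empty_or_nonempty with rfl | hS
  · exact ct_cell H B w hle hc hi h2 h3 (fun d hd h => h4 d hd h (by simp)) (by simpa using hw)
  replace hS := card_pos.2 hS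
  by_cases hB : B ≤ H
  · obtain rfl := le_antisymm hle hB
    rcases Nat.even_or_odd H.index with ho | ho
    · obtain ⟨z, V, E, x, k1, k2, -, k3, k4⟩ := big_run H w 1 0 0 one_pos (ho.add (by decide))
        (by omega) (Or.inr rfl) (by omega)
      obtain ⟨a, ha, b, hb, k5⟩ := k2 0 one_pos
      exact ⟨_, _, _, _, Path.cons (z 0) _ _ _ _ k1, fun g => by simpa using k3 g, fun g => by
        rw [KE_cons, ke_mk, k5, kk_mul ha hb, ← k4, one_mul]⟩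
    · exact ct_big H w ho (by omega)
  obtain ⟨A, _, _, π, T, p1, p2, p3⟩ := exists_col hle hc
  have p4 : π 1 = 0 := by simpa using p1 1 (one_mem _) 1 (one_mem _)
  have p5 : ∀ a ∈ B, π a⁻¹ = -π a := fun a ha => by
    rw [eq_neg_iff_add_eq_zero, ← p1 _ (inv_mem ha) _ ha, inv_mul_cancel, p4]
  have col : ∀ d, ∃ α : A ≃+ A, (∀ s ∈ B, d⁻¹ * s * d ∈ B → π (d⁻¹ * s * d) = α (π s)) ∧
      ∀ b ∈ B, ∀ b' ∈ B, ∃ x ∈ H, ∃ y ∈ H,
        b⁻¹ * d * b' = x * (d * T.t (π b' - α (π b))) * y := fun d => by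
    choose σ s1 s2 s3 using fun a => h2 d (T.t a) (T.mem a)
    have s4 : ∀ a, π (σ a) = a := fun a => ((p2 _ (s1 a) _ (T.mem a)).2 (s3 a)).trans (p3 a)
    have s5 : ∀ s ∈ B, d⁻¹ * s * d ∈ B → π (d⁻¹ * s * d) = π (d⁻¹ * σ (π s) * d) := fun s k1 k2 => by
      have k3 : (d⁻¹ * s * d)⁻¹ * (d⁻¹ * σ (π s) * d) = d⁻¹ * (s⁻¹ * σ (π s)) * d := by group
      rw [p2 _ k2 _ (s2 _), k3]
      exact h3 d _ ((p2 _ k1 _ (s1 _)).1 (s4 _).symm) (k3 ▸ mul_mem (inv_mem k2) (s2 _))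
    let f : A →+ A := AddMonoidHom.mk' (fun a => π (d⁻¹ * σ a * d)) fun a b => by
      have k3 : d⁻¹ * σ a * d * (d⁻¹ * σ b * d) = d⁻¹ * (σ a * σ b) * d := by group
      rw [← p1 _ (s2 a) _ (s2 b), k3, s5 _ (mul_mem (s1 a) (s1 b)) (k3 ▸ mul_mem (s2 a) (s2 b)),
        p1 _ (s1 a) _ (s1 b), s4, s4]
    have hf : Function.Injective f := (injective_iff_map_eq_zero f).2 fun a ha => by
      have k1 := (p2 _ (one_mem _) _ (s2 a)).1 (p4.trans ha.symm)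
      have k3 : d⁻¹⁻¹ * (1⁻¹ * (d⁻¹ * σ a * d)) * d⁻¹ = 1⁻¹ * σ a := by group
      have k2 := h3 d⁻¹ _ k1 (k3 ▸ mul_mem (inv_mem (one_mem _)) (s1 a))
      rw [k3, ← p2 _ (one_mem _) _ (s1 a), p4, s4] at k2
      exact k2.symm
    refine ⟨AddEquiv.ofBijective f hf.bijective_of_finite, s5, fun b hb b' hb' => ?_⟩
    have k1 := (p2 _ hb _ (s1 _)).1 (s4 _).symm
    have k2 := (p2 _ (T.mem (π b' - f (π b))) _ (mul_mem (inv_mem (s2 (π b))) hb')).1 (by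
      rw [p3, p1 _ (inv_mem (s2 _)) _ hb', p5 _ (s2 _), neg_add_eq_sub]; rfl)
    refine ⟨_, k1, _, k2, ?_⟩
    change _ = b⁻¹ * σ (π b) * (d * T.t (π b' - f (π b))) * _
    group
  have hn : Fintype.card A = H.relIndex B := Nat.eq_of_mul_eq_mul_right (cd_pos H) (by
    rw [T.card_mul, cd_eq, cd_eq, ← (H.subgroupOf B).card_mul_index, mul_comm,
      Nat.card_congr (Subgroup.subgroupOfEquivOfLe hle).toEquiv]
    rfl)
  have col' : ∀ d (α : A ≃+ A), (∀ b ∈ B, ∀ b' ∈ B, ∃ x ∈ H, ∃ y ∈ H,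
      b⁻¹ * d * b' = x * (d * T.t (π b' - α (π b))) * y) → ∀ b ∈ B, ∀ b' ∈ B, ∀ g,
      kk H (b⁻¹ * d * b') g = kk H (d * T.t (π b' - α (π b))) g := fun d α h b hb b' hb' g => by
    obtain ⟨x, hx, y, hy, e⟩ := h b hb b' hb'
    rw [e, kk_mul hx hy]
  obtain ⟨u, u1, u2⟩ := SetLike.not_le_iff_exists.1 hB
  have u3 : (0 : A) ≠ π u := fun h => u2 (by simpa using (p2 _ (one_mem _) _ u1).1 (p4.trans h))
  obtain ⟨α, hα0, hα⟩ := col w
  replace hα := col' w α hα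
  have hfib : ∀ a a' g, kk H ((T.t a)⁻¹ * T.t a') g = kk H ((T.t 0)⁻¹ * T.t (a' - a)) g := fun a a' g => by
    have k6 := mul_mem (inv_mem (T.mem 0)) (T.mem (a' - a))
    have k7 := mul_mem (inv_mem (T.mem a)) (T.mem a')
    rw [← kk_mul (one_mem H) ((p2 _ k6 _ k7).1 (by
      rw [p1 _ (inv_mem (T.mem _)) _ (T.mem _), p1 _ (inv_mem (T.mem _)) _ (T.mem _), p5 _ (T.mem _),
        p5 _ (T.mem _), p3, p3, p3, p3]; abel)) ((T.t 0)⁻¹ * _), one_mul, mul_inv_cancel_left]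
  have hdom : ∀ d, (∃ a ∈ B, ∃ b ∈ B, d = a * w * b) → ∃ ω, ∀ a a' g,
      kk H ((T.t a)⁻¹ * d * T.t a') g = kk H (w * T.t (a' - α a + ω)) g := by
    rintro _ ⟨a, ha, b, hb, rfl⟩
    refine ⟨π b + α (π a), fun x x' g => ?_⟩
    rw [show (T.t x)⁻¹ * (a * w * b) * T.t x' = (a⁻¹ * T.t x)⁻¹ * w * (b * T.t x') by group,
      hα _ (mul_mem (inv_mem ha) (T.mem x)) _ (mul_mem hb (T.mem x')), p1 _ hb _ (T.mem _),
      p1 _ (inv_mem ha) _ (T.mem _), p5 _ ha, p3, p3, map_add, map_neg]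
    congr 3
    abel
  have hF : ∀ g, Fintype.card A * ∑ c, kk H (w * T.t c) g = kk B w g := fun g =>
    T.col_sum (u := α) fun a a' => by rw [hα _ (T.mem a) _ (T.mem a'), p3, p3]
  rw [← hn] at hw
  by_cases h0 : ∑ a : A, a = 0
  · have h7 : 3 ≤ Fintype.card A := by
      by_contra h7
      have h8 : ({0, π u} : Finset A) = univ := eq_univ_of_card _ (le_antisymm (card_le_univ _) (by
        rw [card_pair u3]; omega))
      rw [← h8, sum_pair u3, zero_add] at h0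
      exact u3 h0.symm
    generalize hn' : Fintype.card A = n at hw h7
    obtain ⟨e, e1, e2⟩ : ∃ e ≤ 1, Even (B.index + (n + n + n + 1 + e + 1)) := by
      rcases Nat.even_or_odd (B.index + (n + n + n + 1 + 0 + 1)) with h | h
      · exact ⟨0, by omega, h⟩
      · exact ⟨1, le_rfl, h.add_one⟩
    obtain ⟨z, V, E, x, k1, k2, k3, k4, k5⟩ := big_run B w (n + n + n + 1) e _ (by omega) e2
      (by omega) (Or.inl (by omega)) hw
    refine T.stair h0 (fun d => ?_) hfib α (fun c => kk H (w * T.t c))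
      (fun d => ∃ a ∈ B, ∃ b ∈ B, d = a * w * b) hdom (hn' ▸ hF) hn' z k1 k2 k3 k4 k5
    obtain ⟨β, -, hβ⟩ := col d
    exact ⟨β.toEquiv, fun a a' g => by rw [col' d β hβ _ (T.mem a) _ (T.mem a'), p3, p3]; rfl⟩
  have h5 : ∀ d ∉ B, (¬ ∃ a ∈ B, ∃ b ∈ B, d = a * w * b) →
      ∃ s ∈ S, ∃ a ∈ B, ∃ b ∈ B, d = a * s * b := fun d hd h => by_contra fun h' => h0 (by
    obtain ⟨θ, t1, t2⟩ := h4 d hd h h'
    obtain ⟨β, -, hβ⟩ := col d
    have k1 : Function.Injective fun a => π (θ (T.t a)) := fun a a' e => T.uniq _ _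
      (t2 _ (T.mem a) _ (T.mem a') (Or.inl ((p2 _ (t1 _ (T.mem a)) _ (t1 _ (T.mem a'))).1 e)))
    have k2 : Function.Injective fun a => π (θ (T.t a)) - β a := fun a a' e => T.uniq _ _
      (t2 _ (T.mem a) _ (T.mem a') (Or.inr (by
        obtain ⟨x, hx, y, hy, e1⟩ := hβ _ (T.mem a) _ (t1 _ (T.mem a))
        obtain ⟨x', hx', y', hy', e2⟩ := hβ _ (T.mem a') _ (t1 _ (T.mem a'))
        refine ⟨_, mul_mem hx' (inv_mem hx), _, mul_mem (inv_mem hy) hy', ?_⟩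
        rw [e1, e2, p3, p3, show π (θ (T.t a)) - β a = π (θ (T.t a')) - β a' from e]
        group)))
    rw [← k2.bijective_of_finite.sum_comp fun a => a, sum_sub_distrib,
      k1.bijective_of_finite.sum_comp fun a => a, β.bijective.sum_comp fun a => a, sub_self])
  obtain ⟨m, hm⟩ : ∃ m, Fintype.card A = m + 1 := ⟨_, (Nat.succ_pred_eq_of_pos T.card_pos).symm⟩
  have k4 : ∀ a : A, ∃ k : ℕ, 2 ^ k • a = 0 := fun a => (hi _ (T.mem a)).imp fun k hk => by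
    have k4 : ∀ j : ℕ, π (T.t a ^ j) = j • a := fun j => by
      induction j with
      | zero => simp [p4]
      | succ j ih => rw [pow_succ, p1 _ (pow_mem (T.mem a) j) _ (T.mem a), ih, p3, succ_nsmul]
    rw [← k4, ← p4, eq_comm, p2 _ (one_mem _) _ (pow_mem (T.mem a) _)]
    simpa using hk
  obtain ⟨l', l3, l4⟩ := exists_order k4 h0 hm (AddEquiv.refl A) fun _ => rfl
  have hh : ∑ a : A, a + ∑ a : A, a = 0 := by
    nth_rewrite 1 [← Equiv.sum_comp (Equiv.neg A)]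
    rw [← sum_add_distrib]
    simp
  have hcol : ∀ d, ∃ β : A ≃ A, ∀ a a' g,
      kk H ((T.t a)⁻¹ * d * T.t a') g = kk H (d * T.t (a' - β a)) g := fun d => by
    obtain ⟨β, -, hβ⟩ := col d
    exact ⟨β.toEquiv, fun a a' g => by rw [col' d β hβ _ (T.mem a) _ (T.mem a'), p3, p3]; rfl⟩
  obtain ⟨D, z, o, x, e, r, u', y, y', V, E, g0, g1, g2, g3, g4, g5, g6, g7, g8, g9, g10⟩ :=
    big_gad B w S (4 * m + 2) _ (by omega) h5 (by omega) hw
  have hd' := fun d h => hdom d (g0 d h)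
  obtain ⟨Φ, Vx, Ex, q1, q2, q3⟩ := T.lift_even hh rfl hcol g3 g10
  obtain ⟨x2, Ψ, V1, E1, q4, q5, q6⟩ := T.chain α (fun c => kk H (w * T.t c)) D hd' hF hh rfl h0 hcol
    (fun c => x * T.t (Φ c)) r u' y y' g7 Vx Ex q1 0
  rw [g2] at q4
  obtain rfl | rfl : e = 0 ∨ e = 1 := by omega
  · refine T.fold hfib α (fun c => kk H (w * T.t c)) D hd' hF hh rfl hm l' l3 l4 z g4 g5 g6 (Φ * Ψ)
      V1 E1 q4 (fun g => ?_) 0 x2 fun g => ?_
    · have := g8 g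
      rw [q5, q2]
      simp only [add_zero] at this
      omega
    · rw [q6, ← g9, mul_add, q3, sum_add_distrib, sum_const, card_range, smul_eq_mul]
      ring
  obtain ⟨x3, Ω, V2, E2, q7, q8, q9⟩ := T.link α (fun c => kk H (w * T.t c)) D hd' hF hh rfl
    (g4 (4 * m + 2) (by omega)).1 V1 E1 _ q4 x2
  refine T.fold hfib α (fun c => kk H (w * T.t c)) D hd' hF hh rfl hm l' l3 l4 z
    (fun i hi => g4 i (by omega)) g5 g6 (Φ * Ψ * Ω) V2 E2 q7 (fun g => ?_) 0 x3 fun g => ?_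
  · have := g8 g
    rw [sum_range_succ] at this
    rw [q8, q5, q2]
    omega
  · have e1 := q6 g
    have e2 := q9 g
    have e3 := g9 g
    have e4 := q3 g
    rw [sum_add_distrib, sum_const, card_range, smul_eq_mul] at e1
    simp only [mul_add, add_mul] at e1 e2 e3 ⊢
    nlinarith

end Pool.Agent.Lib.MP_0becda_co.Coset
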